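import Mathlib

set_option autoImplicit false

/-!
# Low-codimension Tate classes for almost all CM types

`X` is the set of embeddings of a CM algebra, `G` the Galois group, `c` complex conjugation.
-/

namespace Pool.Agent.helper33.TC

open Finset

variable {G X : Type} [Group G] [MulAction G X] [Fintype X] [DecidableEq X]

/-- A CM type: a set `Φ` of embeddings with exactly one of `x`, `c x` for every `x`. -/
def IsCMType (c : X → X) (Φ : Finset X) : Prop := ∀ x, x ∈ Φ ↔ c x ∉ Φ

/-- `m` is the weight of a Tate class of codimension `p`. -/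
def IsTateWeight (G : Type) [Group G] [MulAction G X] (Φ : Finset X) (p : ℕ) (m : X → ℕ) : Prop :=
  ∑ x, m x = 2 * p ∧ ∀ g : G, ∑ x ∈ Φ, m (g • x) = p

open Classical in
/-- the CM types -/
noncomputable def cmTypes (c : X → X) : Finset (Finset X) := univ.filter (fun Φ => IsCMType c Φ)

open Classical in
/-- the CM types with an exotic Tate weight of codimension at most `P` -/
noncomputable def badTypes (G : Type) [Group G] [MulAction G X] (c : X → X) (P : ℕ) :
    Finset (Finset X) :=
  (cmTypes c).filter (fun Φ => ∃ p ≤ P, ∃ m : X → ℕ, IsTateWeight G Φ p m ∧ ∃ x, m (c x) ≠ m x)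

/-! ### flipping a CM type at a pair -/

/-- exchange `y` and `c y` -/
def flip (c : X → X) (y : X) (Φ : Finset X) : Finset X := symmDiff Φ {y, c y}

lemma flip_isCMType {c : X → X} (hc : ∀ x, c (c x) = x) (y : X) {Φ : Finset X}
    (hΦ : IsCMType c Φ) : IsCMType c (flip c y Φ) := by
  intro x
  have h := hΦ x
  have h1 : x ∈ ({y, c y} : Finset X) ↔ c x ∈ ({y, c y} : Finset X) := by
    simp only [Finset.mem_insert, Finset.mem_singleton]
    constructor
    · rintro (rfl | rfl)
      · right; rfl
      · left; exact hc y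
    · rintro (h | h)
      · right; rw [← h, hc]
      · left; rw [← hc x, h, hc]
  unfold flip
  rw [Finset.mem_symmDiff, Finset.mem_symmDiff]
  tauto

lemma flip_flip (c : X → X) (y : X) (Φ : Finset X) : flip c y (flip c y Φ) = Φ := by
  unfold flip
  rw [symmDiff_assoc, symmDiff_self, symmDiff_bot]

/-- sums over a CM type of an antisymmetric function -/
lemma sum_flip {c : X → X} (hc : ∀ x, c (c x) = x) (hfree : ∀ x, c x ≠ x) (y : X) {Φ : Finset X}
    (hΦ : IsCMType c Φ) (w : X → ℤ) (hw : ∀ x, w (c x) = - w x) :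
    ∑ x ∈ flip c y Φ, w x = ∑ x ∈ Φ, w x - 2 * w y ∨
      ∑ x ∈ flip c y Φ, w x = ∑ x ∈ Φ, w x + 2 * w y := by
  have hyc : y ≠ c y := fun h => hfree y h.symm
  by_cases hy : y ∈ Φ
  · left
    have hcy : c y ∉ Φ := (hΦ y).1 hy
    have : flip c y Φ = insert (c y) (Φ.erase y) := by
      ext x
      unfold flip
      simp only [Finset.mem_symmDiff, Finset.mem_insert, Finset.mem_singleton, Finset.mem_erase]
      constructor
      · rintro (⟨h1, h2⟩ | ⟨h1, h2⟩)
        · right; exact ⟨fun h => h2 (Or.inl h), h1⟩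
        · rcases h1 with rfl | rfl
          · exact absurd hy h2
          · left; rfl
      · rintro (rfl | ⟨h1, h2⟩)
        · right; exact ⟨Or.inr rfl, hcy⟩
        · left; exact ⟨h2, by rintro (h | h); exact h1 h; exact hcy (h ▸ h2)⟩
    rw [this, Finset.sum_insert (by simp [hcy]), hw]
    have h2 := Finset.add_sum_erase Φ w hy
    linarith
  · right
    have hcy : c y ∈ Φ := by
      by_contra h
      exact hy ((hΦ y).2 h)
    have : flip c y Φ = insert y (Φ.erase (c y)) := by
      ext x
      unfold flip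
      simp only [Finset.mem_symmDiff, Finset.mem_insert, Finset.mem_singleton, Finset.mem_erase]
      constructor
      · rintro (⟨h1, h2⟩ | ⟨h1, h2⟩)
        · right; exact ⟨fun h => h2 (Or.inr h), h1⟩
        · rcases h1 with rfl | rfl
          · left; rfl
          · exact absurd hcy h2
      · rintro (rfl | ⟨h1, h2⟩)
        · right; exact ⟨Or.inl rfl, hy⟩
        · left; exact ⟨h2, by rintro (h | h); exact hy (h ▸ h2); exact h1 h⟩
    rw [this, Finset.sum_insert (by simp [hy])]
    have h2 := Finset.add_sum_erase Φ w hcy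
    rw [hw] at h2
    linarith

lemma sum_flip_of_zero {c : X → X} (hc : ∀ x, c (c x) = x) (hfree : ∀ x, c x ≠ x) (y : X)
    {Φ : Finset X} (hΦ : IsCMType c Φ) (w : X → ℤ) (hw : ∀ x, w (c x) = - w x) (hy : w y = 0) :
    ∑ x ∈ flip c y Φ, w x = ∑ x ∈ Φ, w x := by
  rcases sum_flip hc hfree y hΦ w hw with h | h <;> rw [h, hy] <;> ring

/-! ### triangular systems -/

open Classical in
/-- the CM types satisfying finitely many linear conditions -/
noncomputable def sol (c : X → X) (w : ℕ → X → ℤ) (k : ℕ) : Finset (Finset X) :=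
  (cmTypes c).filter (fun Φ => ∀ j < k, ∑ x ∈ Φ, w j x = 0)

lemma sol_step {c : X → X} (hc : ∀ x, c (c x) = x) (hfree : ∀ x, c x ≠ x) (w : ℕ → X → ℤ)
    (hw : ∀ j x, w j (c x) = - w j x) (k : ℕ) (y : X) (hy : w k y ≠ 0)
    (hy0 : ∀ j < k, w j y = 0) : 2 * (sol c w (k + 1)).card ≤ (sol c w k).card := by
  classical
  have hinj : Set.InjOn (flip c y) (sol c w (k + 1) : Set (Finset X)) := by
    intro a _ b _ hab
    rw [← flip_flip c y a, hab, flip_flip]
  have hdisj : Disjoint (sol c w (k + 1)) ((sol c w (k + 1)).image (flip c y)) := by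
    rw [Finset.disjoint_left]
    intro Φ h1 h2
    rw [Finset.mem_image] at h2
    obtain ⟨Ψ, hΨ, rfl⟩ := h2
    simp only [sol, cmTypes, Finset.mem_filter, Finset.mem_univ, true_and] at h1 hΨ
    have e1 := h1.2 k (Nat.lt_succ_self k)
    have e2 := hΨ.2 k (Nat.lt_succ_self k)
    rcases sum_flip hc hfree y hΨ.1 (w k) (hw k) with h | h <;> rw [h, e2] at e1 <;> omega
  have hsub : sol c w (k + 1) ∪ (sol c w (k + 1)).image (flip c y) ⊆ sol c w k := by
    intro Φ hΦ
    rw [Finset.mem_union, Finset.mem_image] at hΦ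
    rcases hΦ with h | ⟨Ψ, h, rfl⟩
    · simp only [sol, cmTypes, Finset.mem_filter, Finset.mem_univ, true_and] at h ⊢
      exact ⟨h.1, fun j hj => h.2 j (by omega)⟩
    · simp only [sol, cmTypes, Finset.mem_filter, Finset.mem_univ, true_and] at h ⊢
      refine ⟨flip_isCMType hc y h.1, fun j hj => ?_⟩
      rw [sum_flip_of_zero hc hfree y h.1 (w j) (hw j) (hy0 j hj)]
      exact h.2 j (by omega)
  have h3 := Finset.card_le_card hsub
  rw [Finset.card_union_of_disjoint hdisj, Finset.card_image_of_injOn hinj] at h3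
  omega

lemma sol_le {c : X → X} (hc : ∀ x, c (c x) = x) (hfree : ∀ x, c x ≠ x) (w : ℕ → X → ℤ)
    (hw : ∀ j x, w j (c x) = - w j x) (r : ℕ) (y : ℕ → X) (hy : ∀ k < r, w k (y k) ≠ 0)
    (hy0 : ∀ k < r, ∀ j < k, w j (y k) = 0) : 2 ^ r * (sol c w r).card ≤ (cmTypes c).card := by
  induction r with
  | zero =>
    simp only [pow_zero, one_mul]
    exact Finset.card_filter_le _ _
  | succ r ih =>
    have h1 := ih (fun k hk => hy k (by omega)) (fun k hk j hj => hy0 k (by omega) j hj)
    have h2 := sol_step hc hfree w hw r (y r) (hy r (by omega)) (fun j hj => hy0 r (by omega) j hj)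
    calc 2 ^ (r + 1) * (sol c w (r + 1)).card = 2 ^ r * (2 * (sol c w (r + 1)).card) := by ring
      _ ≤ 2 ^ r * (sol c w r).card := by gcongr
      _ ≤ _ := h1

/-- existence of the triangular system of translates -/
lemma exists_system (v : X → ℤ) (x₀ : X) (hx₀ : v x₀ ≠ 0) (s r : ℕ)
    (hs : (univ.filter (fun x => v x ≠ 0)).card ≤ s)
    (hr : (r - 1) * s < Nat.card (MulAction.orbit G x₀)) :
    ∃ (g : ℕ → G) (y : ℕ → X), (∀ k < r, v (g k • y k) ≠ 0) ∧
      ∀ k < r, ∀ j < k, v (g j • y k) = 0 := by
  classical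
  induction r with
  | zero => exact ⟨fun _ => 1, fun _ => x₀, by simp, by simp⟩
  | succ r ih =>
    obtain ⟨g, y, h1, h2⟩ := ih (lt_of_le_of_lt (Nat.mul_le_mul_right s (by omega)) hr)
    set S : Finset X := univ.filter (fun x => v x ≠ 0) with hS
    set U : Finset X := (range r).biUnion (fun j => S.image (fun x => (g j)⁻¹ • x)) with hU
    have hUc : U.card ≤ r * s := by
      refine Finset.card_biUnion_le.trans ?_
      calc ∑ j ∈ range r, (S.image (fun x => (g j)⁻¹ • x)).card ≤ ∑ _j ∈ range r, s :=
            Finset.sum_le_sum fun j _ => Finset.card_image_le.trans hs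
        _ = r * s := by rw [Finset.sum_const, Finset.card_range, smul_eq_mul]
    set O : Finset X := (MulAction.orbit G x₀).toFinset with hO
    have hOc : O.card = Nat.card (MulAction.orbit G x₀) := by
      rw [hO, Set.toFinset_card, Nat.card_eq_fintype_card]
    have hlt : U.card < O.card := by
      rw [hOc]
      refine lt_of_le_of_lt hUc ?_
      simpa using hr
    obtain ⟨z, hz, hzU⟩ := Finset.exists_mem_notMem_of_card_lt_card hlt
    rw [hO, Set.mem_toFinset] at hz
    obtain ⟨a, ha⟩ := hz
    have haz : a • x₀ = z := ha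
    refine ⟨Function.update g r a⁻¹, Function.update y r z, ?_, ?_⟩
    · intro k hk
      by_cases hkr : k = r
      · subst hkr
        rw [Function.update_self, Function.update_self, ← haz, inv_smul_smul]
        exact hx₀
      · rw [Function.update_of_ne hkr, Function.update_of_ne hkr]
        exact h1 k (by omega)
    · intro k hk j hj
      by_cases hkr : k = r
      · subst hkr
        rw [Function.update_self, Function.update_of_ne (by omega)]
        by_contra hne
        apply hzU
        rw [hU, Finset.mem_biUnion]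
        refine ⟨j, Finset.mem_range.2 hj, Finset.mem_image.2 ⟨g j • z, ?_, inv_smul_smul _ _⟩⟩
        rw [hS, Finset.mem_filter]
        exact ⟨Finset.mem_univ _, hne⟩
      · rw [Function.update_of_ne hkr, Function.update_of_ne (by omega)]
        exact h2 k (by omega) j hj

/-- the number of CM types orthogonal to all translates of `v` -/
lemma card_orth {c : X → X} (hc : ∀ x, c (c x) = x) (hfree : ∀ x, c x ≠ x)
    (hcomm : ∀ (g : G) x, c (g • x) = g • c x) (v : X → ℤ) (hv : ∀ x, v (c x) = - v x)
    (x₀ : X) (hx₀ : v x₀ ≠ 0) (s r : ℕ)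
    (hs : (univ.filter (fun x => v x ≠ 0)).card ≤ s)
    (hr : (r - 1) * s < Nat.card (MulAction.orbit G x₀)) (A : Finset (Finset X))
    (hA : ∀ Φ ∈ A, IsCMType c Φ ∧ ∀ g : G, ∑ x ∈ Φ, v (g • x) = 0) :
    2 ^ r * A.card ≤ (cmTypes c).card := by
  classical
  obtain ⟨g, y, h1, h2⟩ := exists_system v x₀ hx₀ s r hs hr
  have h3 := sol_le hc hfree (fun j x => v (g j • x)) (fun j x => by
    rw [← hcomm, hv]) r y h1 h2
  refine le_trans ?_ h3
  gcongr
  intro Φ hΦ
  simp only [sol, cmTypes, Finset.mem_filter, Finset.mem_univ, true_and]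
  exact ⟨(hA Φ hΦ).1, fun j _ => (hA Φ hΦ).2 (g j)⟩

/-! ### counting the weights -/

/-- the antisymmetric function of a word -/
def wordFun (c : X → X) {n : ℕ} (s : Fin n → Option X) (x : X) : ℤ :=
  ((univ.filter (fun i => s i = some x)).card : ℤ) - (univ.filter (fun i => s i = some (c x))).card

lemma exists_word (c : X → X) (n : ℕ) (m : X → ℕ) (hm : ∑ x, m x ≤ n) :
    ∃ s : Fin n → Option X, ∀ x, (univ.filter (fun i => s i = some x)).card = m x := by
  classical
  set k := ∑ x, m x with hk
  have hcard : Fintype.card (Σ x : X, Fin (m x)) = k := by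
    rw [Fintype.card_sigma]; simp [hk]
  let e : (Σ x : X, Fin (m x)) ≃ Fin k := Fintype.equivFinOfCardEq hcard
  refine ⟨fun i => if h : i.1 < k then some (e.symm ⟨i.1, h⟩).1 else none, fun x => ?_⟩
  have : m x = Fintype.card (Fin (m x)) := (Fintype.card_fin _).symm
  rw [this, ← Finset.card_univ]
  symm
  apply Finset.card_bij (fun (a : Fin (m x)) _ => (⟨(e ⟨x, a⟩).1, lt_of_lt_of_le (e ⟨x, a⟩).2 hm⟩ : Fin n))
  · intro a _
    rw [Finset.mem_filter]
    refine ⟨Finset.mem_univ _, ?_⟩
    have h1 : (e ⟨x, a⟩).1 < k := (e ⟨x, a⟩).2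
    simp only [h1, dif_pos]
    simp
  · intro a _ b _ hab
    simp only [Fin.mk.injEq] at hab
    have h1 := e.injective (Fin.ext hab)
    simpa using h1
  · intro i hi
    rw [Finset.mem_filter] at hi
    by_cases h : i.1 < k
    · simp only [h, dif_pos, true_and, Finset.mem_univ, Option.some.injEq] at hi
      obtain ⟨q, hq⟩ : ∃ q, e.symm ⟨i.1, h⟩ = q := ⟨_, rfl⟩
      obtain ⟨z, a⟩ := q
      rw [hq] at hi
      simp only at hi
      subst hi
      refine ⟨a, Finset.mem_univ _, ?_⟩
      rw [Fin.ext_iff]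
      simp only
      rw [← hq]
      simp
    · simp [h] at hi

lemma wordFun_anti {c : X → X} (hc : ∀ x, c (c x) = x) {n : ℕ} (s : Fin n → Option X) (x : X) :
    wordFun c s (c x) = - wordFun c s x := by
  unfold wordFun
  rw [hc]; ring

lemma wordFun_support (c : X → X) (hc : ∀ x, c (c x) = x) {n : ℕ} (s : Fin n → Option X) :
    (univ.filter (fun x => wordFun c s x ≠ 0)).card ≤ 2 * n := by
  classical
  set T : Finset X := univ.filter (fun x => ∃ i, s i = some x) with hT
  have hTc : T.card ≤ n := by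
    have h1 : T.image some ⊆ (univ : Finset (Fin n)).image s := by
      intro a ha
      rw [Finset.mem_image] at ha
      obtain ⟨x, hx, rfl⟩ := ha
      rw [hT, Finset.mem_filter] at hx
      obtain ⟨i, hi⟩ := hx.2
      exact Finset.mem_image.2 ⟨i, Finset.mem_univ _, hi⟩
    have h2 := Finset.card_le_card h1
    rw [Finset.card_image_of_injective _ (Option.some_injective X)] at h2
    refine h2.trans (Finset.card_image_le.trans ?_)
    rw [Finset.card_univ, Fintype.card_fin]
  have hsub : univ.filter (fun x => wordFun c s x ≠ 0) ⊆ T ∪ T.image c := by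
    intro x hx
    rw [Finset.mem_filter] at hx
    by_contra h
    apply hx.2
    rw [Finset.mem_union, Finset.mem_image, not_or] at h
    have e1 : univ.filter (fun i => s i = some x) = ∅ := by
      rw [Finset.filter_eq_empty_iff]
      intro i _ hi
      exact h.1 (by rw [hT, Finset.mem_filter]; exact ⟨Finset.mem_univ _, i, hi⟩)
    have e2 : univ.filter (fun i => s i = some (c x)) = ∅ := by
      rw [Finset.filter_eq_empty_iff]
      intro i _ hi
      exact h.2 ⟨c x, by rw [hT, Finset.mem_filter]; exact ⟨Finset.mem_univ _, i, hi⟩, hc x⟩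
    unfold wordFun
    rw [e1, e2]
    simp
  refine (Finset.card_le_card hsub).trans ((Finset.card_union_le _ _).trans ?_)
  have := Finset.card_image_le (s := T) (f := c)
  omega

/-- sum of a weight over the complementary type -/
lemma sum_conj {c : X → X} (hc : ∀ x, c (c x) = x) (hcomm : ∀ (g : G) x, c (g • x) = g • c x)
    {Φ : Finset X} (hΦ : IsCMType c Φ) {p : ℕ} {m : X → ℕ} (hm : IsTateWeight G Φ p m) (g : G) :
    ∑ x ∈ Φ, m (c (g • x)) = p := by
  classical
  have h1 : ∑ x, m (g • x) = 2 * p := by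
    rw [← hm.1]
    exact Fintype.sum_bijective (fun x => g • x) (MulAction.bijective g) _ _ (fun _ => rfl)
  have h2 : ∑ x ∈ Φᶜ, m (g • x) = ∑ x ∈ Φ, m (c (g • x)) := by
    apply Finset.sum_nbij' c c
    · intro x hx
      rw [Finset.mem_compl] at hx
      by_contra h
      exact hx ((hΦ x).2 h)
    · intro x hx
      rw [Finset.mem_compl]
      exact (hΦ x).1 hx
    · intro x _; exact hc x
    · intro x _; exact hc x
    · intro x _
      rw [hcomm, hc]
  have h3 := Finset.sum_add_sum_compl Φ (fun x => m (g • x))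
  have h4 := hm.2 g
  omega

theorem bad_mul_le {c : X → X} (hc : ∀ x, c (c x) = x) (hfree : ∀ x, c x ≠ x)
    (hcomm : ∀ (g : G) x, c (g • x) = g • c x) (P r : ℕ)
    (hr : ∀ x : X, (r - 1) * (4 * P) < Nat.card (MulAction.orbit G x)) :
    2 ^ r * (badTypes G c P).card ≤ (Fintype.card X + 1) ^ (2 * P) * (cmTypes c).card := by
  classical
  set A : (Fin (2 * P) → Option X) → Finset (Finset X) := fun s =>
    (cmTypes c).filter (fun Φ => (∃ x, wordFun c s x ≠ 0) ∧
      ∀ g : G, ∑ x ∈ Φ, wordFun c s (g • x) = 0) with hA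
  have hsub : badTypes G c P ⊆ univ.biUnion A := by
    intro Φ hΦ
    simp only [badTypes, Finset.mem_filter] at hΦ
    obtain ⟨hcm, p, hp, m, hm, x, hx⟩ := hΦ
    have hcm' : IsCMType c Φ := by
      simpa [cmTypes] using hcm
    obtain ⟨s, hs⟩ := exists_word c (2 * P) (fun x => m x - m (c x)) (by
      calc ∑ x, (m x - m (c x)) ≤ ∑ x, m x := Finset.sum_le_sum fun x _ => Nat.sub_le _ _
        _ = 2 * p := hm.1
        _ ≤ 2 * P := by omega)
    have hv : ∀ x, wordFun c s x = (m x : ℤ) - m (c x) := by
      intro x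
      unfold wordFun
      rw [hs x, hs (c x), hc]
      omega
    rw [Finset.mem_biUnion]
    refine ⟨s, Finset.mem_univ _, ?_⟩
    rw [hA, Finset.mem_filter]
    refine ⟨hcm, ⟨x, ?_⟩, fun g => ?_⟩
    · rw [hv]
      omega
    · simp only [hv]
      rw [Finset.sum_sub_distrib]
      have e1 := hm.2 g
      have e2 := sum_conj hc hcomm hcm' hm g
      have e1' : ∑ x ∈ Φ, (m (g • x) : ℤ) = p := by exact_mod_cast e1
      have e2' : ∑ x ∈ Φ, (m (c (g • x)) : ℤ) = p := by exact_mod_cast e2
      rw [e1', e2']; ring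
  have hone : ∀ s, 2 ^ r * (A s).card ≤ (cmTypes c).card := by
    intro s
    by_cases h0 : ∃ x, wordFun c s x ≠ 0
    · obtain ⟨x₀, hx₀⟩ := h0
      refine card_orth hc hfree hcomm (wordFun c s) (wordFun_anti hc s) x₀ hx₀ (4 * P) r ?_ (hr x₀)
        (A s) ?_
      · have := wordFun_support c hc s
        omega
      · intro Φ hΦ
        rw [hA, Finset.mem_filter] at hΦ
        exact ⟨by simpa [cmTypes] using hΦ.1, hΦ.2.2⟩
    · have : A s = ∅ := by
        rw [hA]
        simp only
        rw [Finset.filter_eq_empty_iff]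
        intro Φ _ h
        exact h0 h.1
      rw [this]; simp
  calc 2 ^ r * (badTypes G c P).card ≤ 2 ^ r * ∑ s, (A s).card := by
        gcongr
        exact (Finset.card_le_card hsub).trans Finset.card_biUnion_le
    _ = ∑ s, 2 ^ r * (A s).card := by rw [Finset.mul_sum]
    _ ≤ ∑ _s : Fin (2 * P) → Option X, (cmTypes c).card := Finset.sum_le_sum fun s _ => hone s
    _ = _ := by
        rw [Finset.sum_const, Finset.card_univ, Fintype.card_fun, Fintype.card_option,
          Fintype.card_fin, smul_eq_mul]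

end Pool.Agent.helper33.TC
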